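import Pool.Agent.Helper47.RF.CoreGoals

/-!
# MP_c98eff_gt, project RF, packet C4: integration on the unit quaternions
-/

set_option autoImplicit false

namespace Pool.Agent.Helper42.RF

open Finset Pool.Agent.Helper47.RF MeasureTheory

theorem Sm.continuousOn' {f : HH → ℝ} (hf : Sm f) : ContinuousOn f {0}ᶜ := hf.cd.continuousOn

/-- a smooth function is bounded -/
theorem Sm.bounded {f : HH → ℝ} (hf : Sm f) : ∃ C, 0 ≤ C ∧ ∀ x, x ≠ 0 → |f x| ≤ C := by
  have hc : IsCompact (Metric.sphere (0 : HH) 1) := isCompact_sphere _ _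
  have hcont : ContinuousOn (fun x => |f x|) (Metric.sphere (0 : HH) 1) := by
    refine (hf.cd.continuousOn.mono ?_).abs
    intro x hx
    rw [mem_sphere_zero_iff_norm] at hx
    intro h
    rw [Set.mem_singleton_iff] at h
    rw [h, norm_zero] at hx
    exact zero_ne_one hx
  obtain ⟨C, hC⟩ := hc.bddAbove_image hcont
  refine ⟨max C 0, le_max_right _ _, fun x hx => ?_⟩
  have hn : 0 < ‖x‖ := norm_pos_iff.2 hx
  have h1 : f (‖x‖⁻¹ • x) = f x := hf.hom _ _ (inv_pos.2 hn)
  rw [← h1]
  refine (hC ⟨‖x‖⁻¹ • x, ?_, rfl⟩).trans (le_max_left _ _)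
  rw [mem_sphere_zero_iff_norm, norm_smul, norm_inv, norm_norm, inv_mul_cancel₀ hn.ne']

theorem Sm.aesm {f : HH → ℝ} (hf : Sm f) : AEStronglyMeasurable f (volume : Measure HH) := by
  have h1 : AEStronglyMeasurable f ((volume : Measure HH).restrict {0}ᶜ) :=
    hf.cd.continuousOn.aestronglyMeasurable (measurableSet_singleton _).compl
  have h2 : (volume : Measure HH).restrict {0}ᶜ = volume := by
    refine Measure.restrict_eq_self_of_ae_mem ?_
    rw [ae_iff]
    simp
  rwa [h2] at h1

theorem Sm.integrableOn {f : HH → ℝ} (hf : Sm f) : IntegrableOn f (Metric.ball (0 : HH) 1) := by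
  obtain ⟨C, hC0, hC⟩ := Sm.bounded hf
  have hs : MeasurableSet (Metric.ball (0 : HH) 1 \ {0}) :=
    measurableSet_ball.diff (measurableSet_singleton _)
  have hfin : volume (Metric.ball (0 : HH) 1 \ {0}) ≠ ⊤ := by
    refine ne_top_of_le_ne_top (measure_ball_lt_top (μ := (volume : Measure HH))
      (x := (0 : HH)) (r := 1)).ne (measure_mono Set.sdiff_subset)
  have h1 : IntegrableOn f (Metric.ball (0 : HH) 1 \ {0}) := by
    refine Measure.integrableOn_of_bounded hfin ?_ (M := C) ?_
    · exact Sm.aesm hf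
    · rw [ae_restrict_iff' hs]
      exact Filter.Eventually.of_forall fun x hx => by
        rw [Real.norm_eq_abs]
        exact hC x hx.2
  refine h1.congr_set_ae ?_
  exact (sdiff_null_ae_eq_self (measure_singleton _)).symm

/-- right multiplication by a unit quaternion -/
noncomputable def rot (u : HH) (hu : ‖u‖ = 1) : HH ≃ₗᵢ[ℝ] HH :=
  LinearIsometry.toLinearIsometryEquiv
    (⟨LinearMap.mulRight ℝ u, fun x => by
      rw [LinearMap.mulRight_apply, norm_mul, hu, mul_one]⟩ : HH →ₗᵢ[ℝ] HH) rfl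

theorem rot_apply (u : HH) (hu : ‖u‖ = 1) (x : HH) : rot u hu x = x * u := rfl

theorem integral_rot (f : HH → ℝ) (u : HH) (hu : ‖u‖ = 1) :
    ∫ x in Metric.ball (0 : HH) 1, f (x * u) = ∫ x in Metric.ball (0 : HH) 1, f x := by
  have hmp := (rot u hu).measurePreserving
  have hemb : MeasurableEmbedding (rot u hu) := (rot u hu).toHomeomorph.measurableEmbedding
  have h := hmp.setIntegral_preimage_emb hemb f (Metric.ball (0 : HH) 1)
  rw [← h]
  have hpre : (rot u hu) ⁻¹' (Metric.ball (0 : HH) 1) = Metric.ball (0 : HH) 1 := by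
    ext x
    rw [Set.mem_preimage, mem_ball_zero_iff, mem_ball_zero_iff, (rot u hu).norm_map]
  rw [hpre]
  rfl

/-- the one-parameter group -/
noncomputable def uu (i : Fin 3) (s : ℝ) : HH := (Real.cos s : ℝ) • (1 : HH) + (Real.sin s : ℝ) • qe i

theorem one_re' : (1 : HH).re = 1 := rfl
theorem one_imI' : (1 : HH).imI = 0 := rfl
theorem one_imJ' : (1 : HH).imJ = 0 := rfl
theorem one_imK' : (1 : HH).imK = 0 := rfl

theorem qe_sq (i : Fin 3) : qe i * qe i = -1 := by
  fin_cases i <;> ext <;> simp [qe, one_re', one_imI', one_imJ', one_imK']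

theorem norm_uu (i : Fin 3) (s : ℝ) : ‖uu i s‖ = 1 := by
  have h : ‖uu i s‖ * ‖uu i s‖ = 1 := by
    rw [← Quaternion.normSq_eq_norm_mul_self, Quaternion.normSq_def']
    have hcs := Real.cos_sq_add_sin_sq s
    fin_cases i <;> simp [uu, qe, one_re', one_imI', one_imJ', one_imK']
  nlinarith [norm_nonneg (uu i s)]

theorem hasDerivAt_uu (i : Fin 3) (s : ℝ) : HasDerivAt (uu i) (uu i s * qe i) s := by
  have h1 : HasDerivAt (fun s => (Real.cos s : ℝ) • (1 : HH)) ((-Real.sin s) • (1 : HH)) s :=
    (Real.hasDerivAt_cos s).smul_const _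
  have h2 : HasDerivAt (fun s => (Real.sin s : ℝ) • qe i) ((Real.cos s) • qe i) s :=
    (Real.hasDerivAt_sin s).smul_const _
  have h3 := h1.add h2
  have h4 : uu i s * qe i = (-Real.sin s) • (1 : HH) + (Real.cos s) • qe i := by
    unfold uu
    rw [add_mul, smul_mul_assoc, one_mul, smul_mul_assoc, qe_sq, smul_neg, neg_smul, add_comm]
  rw [h4]
  exact h3

theorem Sm.differentiableAt {f : HH → ℝ} (hf : Sm f) {x : HH} (hx : x ≠ 0) :
    DifferentiableAt ℝ f x := by
  have h : ContDiffAt ℝ ((⊤ : ℕ∞) : WithTop ℕ∞) f x :=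
    hf.cd.contDiffAt (isOpen_compl_singleton.mem_nhds hx)
  exact h.differentiableAt (by simp)

theorem hasDerivAt_rot {f : HH → ℝ} (hf : Sm f) (i : Fin 3) (x : HH) (hx : x ≠ 0) (s : ℝ) :
    HasDerivAt (fun s => f (x * uu i s)) (E i f (x * uu i s)) s := by
  have hne : x * uu i s ≠ 0 := by
    refine mul_ne_zero hx fun h => ?_
    have := norm_uu i s
    rw [h, norm_zero] at this
    exact zero_ne_one this
  have h1 := (Sm.differentiableAt hf hne).hasFDerivAt
  have h2 : HasDerivAt (fun s => x * uu i s) (x * (uu i s * qe i)) s :=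
    (hasDerivAt_uu i s).const_mul x
  have h3 := h1.comp_hasDerivAt s h2
  unfold E
  rw [mul_assoc]
  exact h3

theorem uu_zero (i : Fin 3) : uu i 0 = 1 := by
  unfold uu
  simp

theorem E_zero (i : Fin 3) (f : HH → ℝ) : E i f 0 = 0 := by
  unfold E
  rw [zero_mul, map_zero]

theorem integral_E {f : HH → ℝ} (hf : Sm f) (i : Fin 3) (hE : Sm (E i f)) :
    ∫ x in Metric.ball (0 : HH) 1, E i f x = 0 := by
  obtain ⟨C, hC0, hC⟩ := Sm.bounded hE
  have hbd : ∀ x, ‖E i f x‖ ≤ C := by
    intro x
    by_cases hx : x = 0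
    · rw [hx, E_zero, norm_zero]; exact hC0
    · rw [Real.norm_eq_abs]; exact hC x hx
  have hne : ∀ᵐ x ∂(volume.restrict (Metric.ball (0 : HH) 1)), x ≠ 0 := by
    refine ae_restrict_of_ae ?_
    rw [ae_iff]
    simp
  have hint0 := Sm.integrableOn hf
  have hintE := Sm.integrableOn hE
  have hrotint : ∀ s, IntegrableOn (fun x => f (x * uu i s)) (Metric.ball (0 : HH) 1) := by
    intro s
    have hmp := (rot (uu i s) (norm_uu i s)).measurePreserving
    have hemb : MeasurableEmbedding (rot (uu i s) (norm_uu i s)) :=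
      (rot (uu i s) (norm_uu i s)).toHomeomorph.measurableEmbedding
    have h := (hmp.integrableOn_comp_preimage hemb (f := f) (s := Metric.ball (0 : HH) 1)).2 hint0
    have hpre : (rot (uu i s) (norm_uu i s)) ⁻¹' (Metric.ball (0 : HH) 1) =
        Metric.ball (0 : HH) 1 := by
      ext x
      rw [Set.mem_preimage, mem_ball_zero_iff, mem_ball_zero_iff,
        (rot (uu i s) (norm_uu i s)).norm_map]
    rw [hpre] at h
    exact h
  have key := hasDerivAt_integral_of_dominated_loc_of_deriv_le
    (μ := volume.restrict (Metric.ball (0 : HH) 1)) (F := fun s x => f (x * uu i s))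
    (F' := fun s x => E i f (x * uu i s)) (x₀ := (0 : ℝ)) (s := Set.univ) (bound := fun _ => C)
    Filter.univ_mem (Filter.Eventually.of_forall fun s => (hrotint s).aestronglyMeasurable)
    (hrotint 0)
    (by
      simp only [uu_zero, mul_one]
      exact hintE.aestronglyMeasurable)
    (Filter.Eventually.of_forall fun x s _ => hbd _)
    (integrableOn_const (measure_ball_lt_top (μ := (volume : Measure HH))).ne)
    (by
      filter_upwards [hne] with x hx
      intro s _
      exact hasDerivAt_rot hf i x hx s)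
  have hconst : (fun s => ∫ x in Metric.ball (0 : HH) 1, f (x * uu i s)) =
      fun _ => ∫ x in Metric.ball (0 : HH) 1, f x := by
    funext s
    exact integral_rot f (uu i s) (norm_uu i s)
  have h2 := key.2
  rw [hconst] at h2
  have h3 := h2.unique (hasDerivAt_const _ _)
  simpa only [uu_zero, mul_one] using h3

theorem vol_ball : (volume (Metric.ball (0 : HH) 1)).toReal = Real.pi ^ 2 / 2 := by
  rw [InnerProductSpace.volume_ball, Quaternion.finrank_eq_four]
  have h1 : Real.Gamma (((4 : ℕ) : ℝ) / 2 + 1) = 2 := by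
    have : ((4 : ℕ) : ℝ) / 2 + 1 = ((2 : ℕ) : ℝ) + 1 := by norm_num
    rw [this, Real.Gamma_nat_eq_factorial]
    norm_num
  have h2 : Real.sqrt Real.pi ^ 4 = Real.pi ^ 2 := by
    have h := Real.sq_sqrt Real.pi_pos.le
    calc Real.sqrt Real.pi ^ 4 = (Real.sqrt Real.pi ^ 2) ^ 2 := by ring
      _ = Real.pi ^ 2 := by rw [h]
  rw [h1, h2]
  simp only [ENNReal.ofReal_one, one_pow, one_mul]
  rw [ENNReal.toReal_ofReal (by positivity)]

theorem goal_C4 (hC1 : Goal_C1) (hC2 : Goal_C2) : Goal_C4 := by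
  obtain ⟨-, hadd, -, hmul, -, -, -, hE, -⟩ := hC1
  obtain ⟨-, -, -, -, hleib, -, -, -⟩ := hC2
  refine ⟨?_, fun f hf => Sm.integrableOn hf, ?_, ?_, ?_⟩
  · intro f hf
    obtain ⟨C, hC0, hC⟩ := Sm.bounded hf
    refine ⟨C, fun x => ?_⟩
    by_cases hx : x = 0
    · rw [hx]; linarith
    · have := hC x hx
      have := abs_nonneg (f 0)
      linarith
  · intro i f hf
    unfold integ
    rw [integral_E hf i (hE f i hf), mul_zero]
  · intro i f h hf hh
    have h1 := integral_E (hmul f h hf hh) i (hE _ i (hmul f h hf hh))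
    have h2 : (fun x => E i (fun y => f y * h y) x) =
        fun x => E i f x * h x + f x * E i h x := by
      funext x
      exact hleib i f h x hf hh
    have h3 : ∫ x in Metric.ball (0 : HH) 1, (E i f x * h x + f x * E i h x) = 0 := by
      rw [← h1]
      exact congrArg (fun F : HH → ℝ => ∫ x in Metric.ball (0 : HH) 1, F x) h2.symm
    have i1 := Sm.integrableOn (hmul _ _ (hE f i hf) hh)
    have i2 := Sm.integrableOn (hmul _ _ hf (hE h i hh))
    rw [integral_add i1 i2] at h3
    unfold integ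
    linarith
  · unfold integ
    rw [setIntegral_const, smul_eq_mul, mul_one]
    have : volume.real (Metric.ball (0 : HH) 1) = Real.pi ^ 2 / 2 := vol_ball
    rw [this]
    ring

end Pool.Agent.Helper42.RF
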