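import Pool.Agent.Helper64.RF.GoalsF

/-!
PROJECT RF, packet F-FIN: the volume bound for almost constantly curved metrics.
-/

open Quaternion MeasureTheory

open scoped RealInnerProductSpace

namespace Pool.Agent.Helper42.RF

open Pool.Agent.Helper64.RF

theorem xi_smul_fin (r : ℝ) (hr : 0 < r) (x : ℍ[ℝ]) : xi (r • x) = xi x := by
  unfold xi
  have h1 : ‖r • x‖ + (r • x).re = r * (‖x‖ + x.re) := by
    rw [norm_smul, Real.norm_eq_abs, abs_of_pos hr]
    simp
    ring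
  rw [h1, im_smul, smul_smul, mul_inv]
  congr 1
  by_cases h : ‖x‖ + x.re = 0
  · simp [h]
  · field_simp

theorem Fh_smul_fin (Φ : W → ℍ[ℝ]) (r : ℝ) (hr : 0 < r) (x : ℍ[ℝ]) :
    Fh Φ (r • x) = r • Fh Φ x := by
  unfold Fh
  rw [xi_smul_fin r hr, norm_smul, Real.norm_eq_abs, abs_of_pos hr, smul_smul]

theorem norm_Fh_fin (Φ : W → ℍ[ℝ]) (h : ∀ ξ, ‖Φ ξ‖ = 1) (x : ℍ[ℝ]) : ‖Fh Φ x‖ = ‖x‖ := by
  unfold Fh
  rw [norm_smul, h, mul_one, norm_norm]

/-- Positivity on the region. -/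
theorem KR_pos_fin {R : ℝ} {x : ℍ[ℝ]} (hx : x ∈ KR R) : 0 < ‖x‖ + x.re := by
  obtain ⟨h0, h⟩ := hx
  have hn : 0 < ‖x‖ := norm_pos_iff.mpr h0
  have h2 : 0 < (1 + R ^ 2) * (‖x‖ + x.re) := by nlinarith
  exact (mul_pos_iff_of_pos_left (by positivity)).mp h2

theorem KR_meas_fin (R : ℝ) : MeasurableSet (KR R) := by
  have h1 : MeasurableSet {x : ℍ[ℝ] | x ≠ 0} := (measurableSet_singleton (0 : ℍ[ℝ])).compl
  have hre : Continuous (fun x : ℍ[ℝ] => x.re) := Quaternion.continuous_re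
  have h2 : IsClosed {x : ℍ[ℝ] | (1 - R ^ 2) * ‖x‖ ≤ (1 + R ^ 2) * x.re} :=
    isClosed_le (by fun_prop) (by fun_prop)
  exact h1.inter h2.measurableSet

/-- `sqrt (det (gmat g x))` is nice. -/
theorem sqrt_det_fin {g : ℍ[ℝ] → W →L[ℝ] W →L[ℝ] ℝ} (hg : Met g) :
    IntegrableOn (fun x => Real.sqrt (gmat g x).det) (Metric.ball (0 : ℍ[ℝ]) 1) := by
  let φ : (W →L[ℝ] W →L[ℝ] ℝ) → ℝ := fun A =>
    (Matrix.of fun i j : Fin 3 => A (Pi.single i 1) (Pi.single j 1)).det
  have hφ : ContDiff ℝ (⊤ : ℕ∞) φ := by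
    have he : ∀ i j : Fin 3, ContDiff ℝ (⊤ : ℕ∞)
        (fun A : W →L[ℝ] W →L[ℝ] ℝ => A (Pi.single i 1) (Pi.single j 1)) := by
      intro i j
      exact (contDiff_id.clm_apply contDiff_const).clm_apply contDiff_const
    have : φ = fun A => A (Pi.single 0 1) (Pi.single 0 1) * A (Pi.single 1 1) (Pi.single 1 1) *
          A (Pi.single 2 1) (Pi.single 2 1)
        - A (Pi.single 0 1) (Pi.single 0 1) * A (Pi.single 1 1) (Pi.single 2 1) *
          A (Pi.single 2 1) (Pi.single 1 1)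
        - A (Pi.single 0 1) (Pi.single 1 1) * A (Pi.single 1 1) (Pi.single 0 1) *
          A (Pi.single 2 1) (Pi.single 2 1)
        + A (Pi.single 0 1) (Pi.single 1 1) * A (Pi.single 1 1) (Pi.single 2 1) *
          A (Pi.single 2 1) (Pi.single 0 1)
        + A (Pi.single 0 1) (Pi.single 2 1) * A (Pi.single 1 1) (Pi.single 0 1) *
          A (Pi.single 2 1) (Pi.single 1 1)
        - A (Pi.single 0 1) (Pi.single 2 1) * A (Pi.single 1 1) (Pi.single 1 1) *
          A (Pi.single 2 1) (Pi.single 0 1) := by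
      funext A
      simp only [φ, Matrix.det_fin_three, Matrix.of_apply]
    rw [this]
    exact ((((((he 0 0).mul (he 1 1)).mul (he 2 2)).sub (((he 0 0).mul (he 1 2)).mul (he 2 1))).sub
      (((he 0 1).mul (he 1 0)).mul (he 2 2))).add (((he 0 1).mul (he 1 2)).mul (he 2 0))).add
      (((he 0 2).mul (he 1 0)).mul (he 2 1)) |>.sub (((he 0 2).mul (he 1 1)).mul (he 2 0))
  have hS : SS (fun x => φ (g x)) := hg.smooth.comp_smooth fun x _ => hφ.contDiffAt
  obtain ⟨C, hC0, hC⟩ := hS.bdd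
  have hgm : (fun x => Real.sqrt (gmat g x).det) = fun x => Real.sqrt (φ (g x)) := rfl
  rw [hgm]
  have hcont : ContinuousOn (fun x => Real.sqrt (φ (g x))) {0}ᶜ :=
    hS.continuousOn.sqrt
  have hae : (Metric.ball (0 : ℍ[ℝ]) 1 \ {0} : Set ℍ[ℝ]) =ᵐ[volume] Metric.ball (0 : ℍ[ℝ]) 1 :=
    sdiff_null_ae_eq_self (measure_singleton 0)
  rw [← integrableOn_congr_set_ae hae]
  have hm : MeasurableSet (Metric.ball (0 : ℍ[ℝ]) 1 \ {0} : Set ℍ[ℝ]) :=
    measurableSet_ball.diff (measurableSet_singleton 0)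
  refine IntegrableOn.of_bound (C := Real.sqrt C) ?_ ?_ ?_
  · exact (measure_mono Set.sdiff_subset).trans_lt measure_ball_lt_top
  · exact (hcont.mono (fun x hx => hx.2)).aestronglyMeasurable hm
  · refine (ae_restrict_iff' hm).mpr (Filter.Eventually.of_forall fun x hx => ?_)
    rw [Real.norm_eq_abs, abs_of_nonneg (Real.sqrt_nonneg _)]
    have hx0 : x ≠ 0 := hx.2
    exact Real.sqrt_le_sqrt ((le_abs_self _).trans (hC x hx0))

/-- **F-FIN.** -/
theorem fin (cay : CAY) (dev : DEV) (jac : JAC) (bdr : BDR) (nee : NEE) (top : TOP) (half : HALF)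
    (dge : DGE) : FIN := by
  obtain ⟨-, -, -, -, hX5, hX6, -⟩ := cay
  intro c0 C0 hc0 hC0
  obtain ⟨δ0, ε0, hδ0, hε0, hnee⟩ := nee c0 C0 hc0 hC0
  set δ : ℝ := min δ0 (1/2) with hδdef
  have hδ : 0 < δ := lt_min hδ0 (by norm_num)
  have hδ1 : δ < 1 := (min_le_right _ _).trans_lt (by norm_num)
  set R : ℝ := max 1 (24 * Real.sqrt C0 / δ) with hRdef
  have hR1 : 1 ≤ R := le_max_left _ _
  have hR : 0 < R := by linarith
  have hRs : 12 * Real.sqrt C0 / R ≤ δ / 2 := by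
    have h1 : 24 * Real.sqrt C0 / δ ≤ R := le_max_right _ _
    rw [div_le_iff₀ hδ] at h1
    rw [div_le_iff₀ hR]
    nlinarith
  obtain ⟨K1, hK1, hdev⟩ := dev c0 C0 R hc0 hC0 hR
  obtain ⟨K2, hK2, hjac⟩ := jac C0 R hC0 hR
  have hs0 : 0 < Real.sqrt (c0 ^ 3) := Real.sqrt_pos.mpr (by positivity)
  obtain ⟨m, hm0, hm1, hm2, hm3, hm4, hm5⟩ : ∃ m : ℝ, 0 < m ∧ m ≤ 1 ∧ m ≤ ε0 ∧ 3 * R * m ≤ δ / 2 ∧
      K2 * m ≤ 1 / 4 ∧ K2 * m < Real.sqrt (c0 ^ 3) := by
    refine ⟨min 1 (min ε0 (min (δ / (6 * R)) (min (1 / (4 * K2)) (Real.sqrt (c0 ^ 3) / (2 * K2))))),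
      ?_, ?_, ?_, ?_, ?_, ?_⟩
    · positivity
    · exact min_le_left _ _
    · exact (min_le_right _ _).trans (min_le_left _ _)
    · have h : min 1 (min ε0 (min (δ / (6 * R)) (min (1 / (4 * K2))
          (Real.sqrt (c0 ^ 3) / (2 * K2))))) ≤ δ / (6 * R) :=
        (min_le_right _ _).trans ((min_le_right _ _).trans (min_le_left _ _))
      calc _ ≤ 3 * R * (δ / (6 * R)) := by gcongr
        _ = δ / 2 := by field_simp; norm_num
    · have h : min 1 (min ε0 (min (δ / (6 * R)) (min (1 / (4 * K2))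
          (Real.sqrt (c0 ^ 3) / (2 * K2))))) ≤ 1 / (4 * K2) :=
        (min_le_right _ _).trans ((min_le_right _ _).trans
          ((min_le_right _ _).trans (min_le_left _ _)))
      calc _ ≤ K2 * (1 / (4 * K2)) := by gcongr
        _ = 1 / 4 := by field_simp
    · have h : min 1 (min ε0 (min (δ / (6 * R)) (min (1 / (4 * K2))
          (Real.sqrt (c0 ^ 3) / (2 * K2))))) ≤ Real.sqrt (c0 ^ 3) / (2 * K2) :=
        (min_le_right _ _).trans ((min_le_right _ _).trans
          ((min_le_right _ _).trans (min_le_right _ _)))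
      calc _ ≤ K2 * (Real.sqrt (c0 ^ 3) / (2 * K2)) := by gcongr
        _ = Real.sqrt (c0 ^ 3) / 2 := by field_simp
        _ < Real.sqrt (c0 ^ 3) := by linarith
  refine ⟨m / K1, by positivity, ?_⟩
  intro g G hB
  obtain ⟨Φ, Y, hD⟩ := hdev g G (m / K1) (by positivity) hB
  have hmK : K1 * (m / K1) = m := by field_simp
  rw [hmK] at hD
  have hjac' := hjac g m Φ Y hB.met hB.upper hm0.le hm1 hD
  have hbdr' := bdr g C0 R m Φ Y hB.met hB.upper hC0 hR hm0.le hD
  have hD1 : Dev g 1 m Φ Y := by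
    refine ⟨hD.smooth, hD.norm, hD.orth, hD.gram, fun ξ hξ a => hD.der ξ (hξ.trans ?_) a⟩
    nlinarith
  have hnee' := hnee g m Φ Y hB.met (fun x hx v => ⟨hB.lower x hx v, hB.upper x hx v⟩) hm0.le hm2 hD1
  -- the base point
  set ξ0 : W := ![R, 0, 0] with hξ0def
  have hξ0 : Helper64.RF.sq ξ0 = R ^ 2 := by simp [hξ0def, Helper64.RF.sq]
  set y0 : ℍ[ℝ] := Φ ξ0 with hy0def
  have hy0 : ‖y0‖ = 1 := hD.norm ξ0
  -- the determinant
  have hdet : ∀ x ∈ KR R, (fderiv ℝ (Fh Φ) x).det ≠ 0 := by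
    intro x hx
    have h1 := (hjac' x hx).2
    have h2 : c0 ^ 3 ≤ (gmat g x).det := by
      apply dge c0 (gmat g x) hc0
      · intro i j
        simp only [gmat, Matrix.of_apply]
        exact hB.met.symm x _ _
      · intro v
        have h3 := hB.lower x hx.1 v
        have h4 : g x v v = ∑ i, ∑ j, gmat g x i j * v i * v j := by
          have hv : v = v 0 • (Pi.single 0 1 : W) + v 1 • (Pi.single 1 1 : W)
              + v 2 • (Pi.single 2 1 : W) := by
            funext i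
            fin_cases i <;> simp
          conv_lhs => rw [hv]
          simp only [map_add, map_smul, add_apply, smul_apply, smul_eq_mul, gmat,
            Matrix.of_apply, Fin.sum_univ_three]
          ring
        rw [← h4]
        exact h3
    have h3 : Real.sqrt (c0 ^ 3) ≤ Real.sqrt (gmat g x).det := Real.sqrt_le_sqrt h2
    intro h0
    rw [h0, abs_zero, zero_sub, abs_neg, abs_of_nonneg (Real.sqrt_nonneg _)] at h1
    linarith
  have hopen : ∀ x ∈ KR R, nhds (Fh Φ x) ≤ Filter.map (Fh Φ) (nhds x) := by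
    intro x hx
    have h1 : HasStrictFDerivAt (Fh Φ) (fderiv ℝ (Fh Φ) x) x :=
      (hjac' x hx).1.hasStrictFDerivAt (by simp)
    rw [← ContinuousLinearMap.coe_toContinuousLinearEquivOfDetNeZero _ (hdet x hx)] at h1
    exact h1.map_nhds_eq_of_equiv.ge
  have hcover := top (Fh Φ) R δ y0 hR hδ hδ1 hy0
    (fun x _ r hr => Fh_smul_fin Φ r hr x) (fun x _ => norm_Fh_fin Φ hD.norm x)
    (fun x hx => (hjac' x hx).1.continuousAt.continuousWithinAt)
    (fun x hx _ => hopen x hx)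
    (by
      intro x hx hn hb
      have hpos := KR_pos_fin hx
      have h1 := (hX6 x hpos).2
      have h2 : Helper64.RF.sq (xi x) = R ^ 2 := by
        have h3 : nn (xi x) = 1 + Helper64.RF.sq (xi x) := rfl
        rw [h3, hn] at h1
        rw [hn] at hb hpos
        have h4 : x.re = (1 - R ^ 2) / (1 + R ^ 2) := by
          rw [eq_div_iff (by positivity)]
          linarith
        have h5 : 1 + x.re = 2 / (1 + R ^ 2) := by
          rw [h4]
          field_simp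
          ring
        rw [h5] at h1
        have h6 : (2 * 1 / (2 / (1 + R ^ 2)) : ℝ) = 1 + R ^ 2 := by
          field_simp
        rw [h6] at h1
        linarith
      have h3 := hbdr' (xi x) ξ0 h2 hξ0
      have h4 : Fh Φ x = Φ (xi x) := by
        unfold Fh
        rw [hn, one_smul]
      rw [h4]
      linarith)
    (by
      obtain ⟨ξ1, hξ1, hξ1'⟩ := hnee' y0 hy0
      obtain ⟨hn, hre, hxi⟩ := hX5 ξ1
      have hs := sq_nonneg' ξ1
      have hn0 : 0 < ‖X ξ1‖ := by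
        rw [hn]
        unfold nn
        linarith
      have hx0 : X ξ1 ≠ 0 := norm_pos_iff.mp hn0
      have hnx : ‖(‖X ξ1‖)⁻¹ • X ξ1‖ = 1 := by
        rw [norm_smul, norm_inv, norm_norm, inv_mul_cancel₀ hn0.ne']
      refine ⟨(‖X ξ1‖)⁻¹ • X ξ1, ⟨?_, ?_⟩, hnx, ?_⟩
      · intro h
        rw [h, norm_zero] at hnx
        exact zero_ne_one hnx
      · rw [hnx]
        have h1 : ((‖X ξ1‖)⁻¹ • X ξ1).re = (‖X ξ1‖)⁻¹ * (X ξ1).re := by simp
        rw [h1, hre, hn]
        have h2 : 0 < nn ξ1 := by rw [← hn]; exact hn0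
        rw [mul_one, inv_mul_eq_div, mul_div_assoc', le_div_iff₀ h2]
        unfold nn
        have h3 : Helper64.RF.sq ξ1 ≤ R ^ 2 := by nlinarith
        nlinarith
      · have h1 : Fh Φ ((‖X ξ1‖)⁻¹ • X ξ1) = Φ ξ1 := by
          unfold Fh
          rw [hnx, one_smul, xi_smul_fin _ (inv_pos.mpr hn0), hxi]
        rw [h1]
        exact (min_le_left _ _).trans_lt hξ1')
  -- measure estimate
  set Bl : Set ℍ[ℝ] := Metric.ball (0 : ℍ[ℝ]) 1 with hBl
  set S : Set ℍ[ℝ] := KR R ∩ Bl with hS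
  have hSm : MeasurableSet S := (KR_meas_fin R).inter measurableSet_ball
  have hsub : {y : ℍ[ℝ] | y ∈ Metric.ball (0 : ℍ[ℝ]) 1 ∧ y ≠ 0 ∧ δ < ‖‖y‖⁻¹ • y - y0‖} ⊆
      Fh Φ '' S := by
    rintro y ⟨hy1, hy2, hy3⟩
    obtain ⟨x, hx, rfl⟩ := hcover y hy2 hy3
    refine ⟨x, ⟨hx, ?_⟩, rfl⟩
    rw [mem_ball_zero_iff] at hy1 ⊢
    rwa [norm_Fh_fin Φ hD.norm] at hy1
  have hint := sqrt_det_fin hB.met
  have hvb : volume Bl ≠ ⊤ := measure_ball_lt_top.ne
  have hmain : volume Bl ≤ 2 * (ENNReal.ofReal (∫ x in Bl, Real.sqrt (gmat g x).det) +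
      ENNReal.ofReal (1 / 4) * volume Bl) := by
    calc volume Bl ≤ 2 * volume {y : ℍ[ℝ] | y ∈ Metric.ball (0 : ℍ[ℝ]) 1 ∧ y ≠ 0 ∧
          δ < ‖‖y‖⁻¹ • y - y0‖} := half δ y0 hδ hδ1 hy0
      _ ≤ 2 * volume (Fh Φ '' S) := by gcongr
      _ ≤ 2 * ∫⁻ x in S, ENNReal.ofReal |(fderiv ℝ (Fh Φ) x).det| := by
          gcongr
          refine addHaar_image_le_lintegral_abs_det_fderiv volume hSm (fun x hx => ?_)
          exact ((hjac' x hx.1).1.differentiableAt (by simp)).hasFDerivAt.hasFDerivWithinAt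
      _ ≤ 2 * ∫⁻ x in S, (ENNReal.ofReal (Real.sqrt (gmat g x).det) + ENNReal.ofReal (1 / 4)) := by
          refine mul_le_mul_right (setLIntegral_mono' hSm fun x hx => ?_) 2
          rw [← ENNReal.ofReal_add (Real.sqrt_nonneg _) (by norm_num)]
          apply ENNReal.ofReal_le_ofReal
          have h1 := (hjac' x hx.1).2
          have h2 := (abs_le.mp h1).2
          linarith
      _ ≤ 2 * ∫⁻ x in Bl, (ENNReal.ofReal (Real.sqrt (gmat g x).det) +
            ENNReal.ofReal (1 / 4)) := by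
          refine mul_le_mul_right (lintegral_mono_set Set.inter_subset_right) 2
      _ = 2 * (ENNReal.ofReal (∫ x in Bl, Real.sqrt (gmat g x).det) +
            ENNReal.ofReal (1 / 4) * volume Bl) := by
          congr 1
          rw [lintegral_add_right _ measurable_const, setLIntegral_const,
            ofReal_integral_eq_lintegral_ofReal hint
              (Filter.Eventually.of_forall fun x => Real.sqrt_nonneg _)]
  have hI0 : 0 ≤ ∫ x in Bl, Real.sqrt (gmat g x).det :=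
    integral_nonneg fun x => Real.sqrt_nonneg _
  have hreal := ENNReal.toReal_mono (by finiteness) hmain
  rw [ENNReal.toReal_mul, ENNReal.toReal_add (by finiteness) (by finiteness), ENNReal.toReal_mul,
    ENNReal.toReal_ofReal hI0, ENNReal.toReal_ofReal (by norm_num)] at hreal
  have h2 : (2 : ENNReal).toReal = 2 := by simp
  rw [h2] at hreal
  linarith

end Pool.Agent.Helper42.RF
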