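import Pool.Agent.Helper64.RF.GoalsD

/-!
PROJECT RF, packet D5-PAR: parallel orthonormal frames along C^1 curves.
-/

open Quaternion

namespace Pool.Agent.Helper42.RF

open Pool.Agent.Helper64.RF

/-- Every positive definite symmetric bilinear form on `W` has an orthonormal triple. -/
theorem orth_exists_par (B : W →L[ℝ] W →L[ℝ] ℝ) (hs : ∀ a b, B a b = B b a)
    (hp : ∀ a, a ≠ 0 → 0 < B a a) :
    ∃ b : Fin 3 → W, ∀ i j, B (b i) (b j) = if i = j then 1 else 0 := by
  have hnorm : ∀ u : W, u ≠ 0 → B ((Real.sqrt (B u u))⁻¹ • u) ((Real.sqrt (B u u))⁻¹ • u) = 1 := by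
    intro u hu
    have h := hp u hu
    simp only [map_smul, smul_apply, smul_eq_mul]
    have h2 : Real.sqrt (B u u) * Real.sqrt (B u u) = B u u := Real.mul_self_sqrt h.le
    have h3 : Real.sqrt (B u u) ≠ 0 := (Real.sqrt_pos.mpr h).ne'
    rw [← mul_assoc, ← mul_inv, h2, inv_mul_cancel₀ h.ne']
  -- first vector
  obtain ⟨f0, h00, h01, h02⟩ : ∃ f0 : W, B f0 f0 = 1 ∧ f0 1 = 0 ∧ f0 2 = 0 := by
    have hu : (![1, 0, 0] : W) ≠ 0 := by
      intro h
      have := congrFun h 0
      simp at this
    exact ⟨_, hnorm _ hu, by simp, by simp⟩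
  obtain ⟨v1, hv11, hv12⟩ : ∃ v : W, v 1 = 1 ∧ v 2 = 0 := ⟨![0, 1, 0], by simp, by simp⟩
  obtain ⟨v2, hv22⟩ : ∃ v : W, v 2 = 1 := ⟨![0, 0, 1], by simp⟩
  obtain ⟨f1, h11, h10, h12⟩ : ∃ f1 : W, B f1 f1 = 1 ∧ B f1 f0 = 0 ∧ f1 2 = 0 := by
    set u : W := v1 - (B v1 f0) • f0 with hudef
    have hu : u ≠ 0 := by
      intro h
      have := congrFun h 1
      simp [hudef, h01, hv11] at this
    have huo : B u f0 = 0 := by
      rw [hudef]
      simp [h00]
    refine ⟨_, hnorm u hu, ?_, ?_⟩
    · simp only [map_smul, smul_apply, huo, smul_zero]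
    · simp [hudef, h02, hv12]
  obtain ⟨f2, h22, h20, h21⟩ : ∃ f2 : W, B f2 f2 = 1 ∧ B f2 f0 = 0 ∧ B f2 f1 = 0 := by
    set u : W := v2 - (B v2 f0) • f0 - (B v2 f1) • f1 with hudef
    have hu : u ≠ 0 := by
      intro h
      have := congrFun h 2
      simp [hudef, h02, h12, hv22] at this
    have huo : B u f0 = 0 := by
      rw [hudef]
      simp [h00, h10]
    have huo1 : B u f1 = 0 := by
      rw [hudef]
      simp [h11, hs f0 f1, h10]
    refine ⟨_, hnorm u hu, ?_, ?_⟩
    · simp only [map_smul, smul_apply, huo, smul_zero]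
    · simp only [map_smul, smul_apply, huo1, smul_zero]
  refine ⟨![f0, f1, f2], ?_⟩
  intro i j
  fin_cases i <;> fin_cases j <;> simp [h00, h11, h22, h10, h20, h21, hs f0 f1, hs f0 f2, hs f1 f2]

/-- **D5-PAR.** -/
theorem par (lode : LODE) : PAR := by
  intro g G hg hG c hc
  have hcd : Continuous c := hc.1.continuous
  have hc' : Continuous (deriv c) := hc.1.continuous_deriv le_rfl
  have hvel : Continuous (vel c) := by
    have h1 : Continuous (fun t => (c t)⁻¹) := hcd.inv₀ hc.2
    exact (imL.continuous).comp (h1.mul hc')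
  have hGc : Continuous (fun t => G (c t)) := by
    rw [continuous_iff_continuousAt]
    intro t
    exact (hG.smooth.continuousAt (hc.2 t)).comp hcd.continuousAt
  have hA : Continuous (fun t => -(G (c t) (vel c t))) := (hGc.clm_apply hvel).neg
  obtain ⟨b, hb⟩ := orth_exists_par (g (c 0)) (hg.symm (c 0)) (hg.pos (c 0) (hc.2 0))
  choose e he0 he using fun i => lode W (fun t => -(G (c t) (vel c t))) hA (b i)
  have hed : ∀ i t, deriv (e i) t = - G (c t) (vel c t) (e i t) := by
    intro i t
    rw [(he i t).deriv]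
    rfl
  refine ⟨e, ?_, hed, ?_⟩
  · intro i
    rw [contDiff_one_iff_deriv]
    refine ⟨fun t => (he i t).differentiableAt, ?_⟩
    have hei : Continuous (e i) :=
      continuous_iff_continuousAt.mpr fun t => (he i t).continuousAt
    have : deriv (e i) = fun t => (-(G (c t) (vel c t))) (e i t) := by
      funext t
      rw [(he i t).deriv]
    rw [this]
    exact hA.clm_apply hei
  · intro t i j
    have hd : ∀ s, HasDerivAt (fun s => g (c s) (e i s) (e j s)) 0 s := by
      intro s
      have h1 : HasDerivAt (fun s => g (c s)) (Ed (vel c s) g (c s)) s :=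
        hg.smooth.chain ((hc.1.differentiable (by norm_num)) s).hasDerivAt (hc.2 s)
      have h2 := (h1.clm_apply (he i s)).clm_apply (he j s)
      have hm := hG.metric (c s) (hc.2 s) (vel c s) (e i s) (e j s)
      have h3 : (0 : ℝ) = ((Ed (vel c s) g (c s)) (e i s) +
          (g (c s)) ((-(G (c s) (vel c s))) (e i s))) (e j s) +
          ((g (c s)) (e i s)) ((-(G (c s) (vel c s))) (e j s)) := by
        simp only [add_apply, neg_apply, map_neg, hm]
        ring
      rw [h3]
      exact h2
    have hconst := is_const_of_deriv_eq_zero (fun s => (hd s).differentiableAt)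
      (fun s => (hd s).deriv) t 0
    have hconst' : g (c t) (e i t) (e j t) = g (c 0) (e i 0) (e j 0) := hconst
    show g (c t) (e i t) (e j t) = _
    rw [hconst', he0, he0]
    exact hb i j

end Pool.Agent.Helper42.RF
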