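import Pool.Agent.Helper73.RF.GoalsD

/-!
# Project RF, packet SIR: ring properties of `SmInf`
-/

namespace Pool.Agent.Helper42.RF

open Pool.Agent.Helper73.RF Pool.Agent.Helper47.RF Finset

/-- Coinduction principle. -/
theorem smInf_coind {I : Set ℝ} (P : (ℝ → HH → ℝ) → Prop)
    (h : ∀ f, P f → ∃ f', P f' ∧ SmFam1 I f f') {f : ℝ → HH → ℝ} (hf : P f) : SmInf I f := by
  choose D hD1 hD2 using h
  let F : ℕ → {f : ℝ → HH → ℝ // P f} := fun k =>
    Nat.rec ⟨f, hf⟩ (fun _ p => ⟨D p.1 p.2, hD1 p.1 p.2⟩) k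
  refine ⟨fun k => (F k).1, rfl, fun k => hD2 (F k).1 (F k).2⟩

theorem smInf_next {I : Set ℝ} {f : ℝ → HH → ℝ} (h : SmInf I f) :
    ∃ f', SmInf I f' ∧ SmFam1 I f f' := by
  obtain ⟨F, rfl, hF⟩ := h
  exact ⟨F 1, ⟨fun k => F (k + 1), rfl, fun k => hF (k + 1)⟩, hF 0⟩

/-- Sums of products. -/
inductive SPr (I : Set ℝ) : (ℝ → HH → ℝ) → Prop
  | mul {f h : ℝ → HH → ℝ} : SmInf I f → SmInf I h → SPr I (fun t x => f t x * h t x)
  | add {u v : ℝ → HH → ℝ} : SPr I u → SPr I v → SPr I (fun t x => u t x + v t x)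

/-- **SIR.** -/
theorem sir (h9 : Goal_C9) : SirStmt := by
  intro I
  obtain ⟨c1, c2, c3, c4, c5, c6, -, c8⟩ := h9 I
  refine ⟨?_, ?_, ?_, ?_, ?_⟩
  · intro f h hf hh
    refine ⟨?_, ?_, ?_, ?_⟩
    · obtain ⟨F, rfl, hF⟩ := hf
      obtain ⟨H, rfl, hH⟩ := hh
      exact ⟨fun k t x => F k t x + H k t x, rfl, fun k => c2 _ _ _ _ (hF k) (hH k)⟩
    · obtain ⟨F, rfl, hF⟩ := hf
      obtain ⟨H, rfl, hH⟩ := hh
      exact ⟨fun k t x => F k t x - H k t x, rfl, fun k => c3 _ _ _ _ (hF k) (hH k)⟩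
    · refine smInf_coind (SPr I) ?_ (SPr.mul hf hh)
      intro u hu
      induction hu with
      | mul h1 h2 =>
        obtain ⟨f', hf', d1⟩ := smInf_next h1
        obtain ⟨h', hh', d2⟩ := smInf_next h2
        exact ⟨_, SPr.add (SPr.mul hf' h2) (SPr.mul h1 hh'), c4 _ _ _ _ d1 d2⟩
      | add _ _ ih1 ih2 =>
        obtain ⟨u', hu', d1⟩ := ih1
        obtain ⟨v', hv', d2⟩ := ih2
        exact ⟨_, SPr.add hu' hv', c2 _ _ _ _ d1 d2⟩
    · obtain ⟨F, rfl, hF⟩ := hf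
      exact ⟨fun k t x => - F k t x, rfl, fun k => c5 _ _ (hF k)⟩
  · intro f i hf
    obtain ⟨F, rfl, hF⟩ := hf
    exact ⟨fun k t => E i (F k t), rfl, fun k => c6 _ _ i (hF k)⟩
  · intro c
    refine ⟨fun k _ _ => if k = 0 then c else 0, by simp, fun k => ?_⟩
    have := c1 (fun _ => if k = 0 then c else 0) (fun _ => 0) continuousOn_const
      continuousOn_const (fun t _ => hasDerivWithinAt_const t I _)
    simpa using this
  · intro ι s f hf
    choose! F hF0 hF1 using hf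
    refine ⟨fun k t x => ∑ a ∈ s, F a k t x, ?_, fun k => c8 ι s _ _ fun a ha => hF1 a ha k⟩
    funext t x
    exact Finset.sum_congr rfl fun a ha => by rw [hF0 a ha]
  · intro f f' h1 h2
    obtain ⟨F, rfl, hF⟩ := h2
    refine ⟨fun k => Nat.casesOn k f F, rfl, fun k => ?_⟩
    cases k with
    | zero => exact h1
    | succ k => exact hF k

end Pool.Agent.Helper42.RF
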